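import Pool.Agent.K7.H56.U.P

/-!
# Binary quartic forms with the invariants `I = 0`, `J = -432 μ⁶`
-/

set_option autoImplicit false
set_option linter.all false

open WeierstrassCurve WeierstrassCurve.Affine
open scoped Classical

namespace Pool.Agent.K7.H56.Z

section alg
variable {F : Type} [Field F]

/-- the value of the form -/
def qf (a b c d e X Z : F) : F :=
  a * X ^ 4 + b * X ^ 3 * Z + c * X ^ 2 * Z ^ 2 + d * X * Z ^ 3 + e * Z ^ 4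

/-- the invariant `I` -/
def qI (a b c d e : F) : F := 12 * a * e - 3 * b * d + c ^ 2

/-- the invariant `J` -/
def qJ (a b c d e : F) : F :=
  72 * a * c * e + 9 * b * c * d - 27 * a * d ^ 2 - 27 * e * b ^ 2 - 2 * c ^ 3

/-- the covariant of degree four -/
def q4 (a b c d e X Z : F) : F :=
  (3 * b ^ 2 - 8 * a * c) * X ^ 4 + 4 * (b * c - 6 * a * d) * X ^ 3 * Z +
    2 * (2 * c ^ 2 - 24 * a * e - 3 * b * d) * X ^ 2 * Z ^ 2 + 4 * (c * d - 6 * b * e) * X * Z ^ 3 +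
    (3 * d ^ 2 - 8 * c * e) * Z ^ 4

/-- the covariant of degree six -/
def q6 (a b c d e X Z : F) : F :=
  (b ^ 3 + 8 * a ^ 2 * d - 4 * a * b * c) * X ^ 6 +
    2 * (16 * a ^ 2 * e + 2 * a * b * d - 4 * a * c ^ 2 + b ^ 2 * c) * X ^ 5 * Z +
    5 * (8 * a * b * e + b ^ 2 * d - 4 * a * c * d) * X ^ 4 * Z ^ 2 +
    20 * (b ^ 2 * e - a * d ^ 2) * X ^ 3 * Z ^ 3 -
    5 * (8 * a * d * e + b * d ^ 2 - 4 * b * c * e) * X ^ 2 * Z ^ 4 -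
    2 * (16 * a * e ^ 2 + 2 * b * d * e - 4 * c ^ 2 * e + c * d ^ 2) * X * Z ^ 5 -
    (d ^ 3 + 8 * b * e ^ 2 - 4 * c * d * e) * Z ^ 6

/-- the syzygy -/
lemma syz (a b c d e X Z : F) (hI : qI a b c d e = 0) :
    27 * q6 a b c d e X Z ^ 2 = q4 a b c d e X Z ^ 3 - 64 * qJ a b c d e * qf a b c d e X Z ^ 3 := by
  have h : 27 * q6 a b c d e X Z ^ 2 = q4 a b c d e X Z ^ 3 -
      48 * qI a b c d e * qf a b c d e X Z ^ 2 * q4 a b c d e X Z -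
      64 * qJ a b c d e * qf a b c d e X Z ^ 3 := by
    unfold q6 q4 qI qJ qf
    ring
  rw [h, hI]
  ring

/-- the element of the cubic algebra -/
def qz (a b c m ε : F) : F := b ^ 2 - 8 / 3 * a * c - 4 * a * m ^ 2 * ε

/-- the seminvariant -/
def qr (a b c d : F) : F := b ^ 3 + 8 * a ^ 2 * d - 4 * a * b * c

/-- the quadratic form -/
def qH (a b c d m ε X Z : F) : F :=
  3 * qz a b c m ε * X ^ 2 + 2 * (b * c - 6 * a * d - 3 * b * m ^ 2 * ε) * X * Z +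
    (4 / 3 * c ^ 2 - 3 * b * d - 2 * c * m ^ 2 * ε - 6 * m ^ 4 * ε ^ 2) * Z ^ 2

variable [CharZero F] {a b c d e m ε X Z : F}

lemma qH_sq (hI : qI a b c d e = 0) (hJ : qJ a b c d e = -432 * m ^ 6) (hε : ε ^ 3 + 16 = 0) :
    qH a b c d m ε X Z ^ 2 = 3 * qz a b c m ε *
      (q4 a b c d e X Z - 12 * m ^ 2 * ε * qf a b c d e X Z) := by
  unfold qH qz q4 qf
  unfold qI at hI
  unfold qJ at hJ
  linear_combination (36 * ε * m ^ 8 * Z ^ 4 + 144 * m ^ 6 * a * X ^ 2 * Z ^ 2 +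
    72 * m ^ 6 * b * X * Z ^ 3 + 24 * m ^ 6 * c * Z ^ 4) * hε +
    ((-4 / 3) * ε * m ^ 2 * Z ^ 4 + (-16 / 3) * a * X ^ 2 * Z ^ 2 + (-8 / 3) * b * X * Z ^ 3 +
      (-8 / 9) * c * Z ^ 4) * hJ +
    (-12 * ε ^ 2 * m ^ 4 * Z ^ 4 - 48 * ε * m ^ 2 * a * X ^ 2 * Z ^ 2 -
      24 * ε * m ^ 2 * b * X * Z ^ 3 - 8 * ε * m ^ 2 * c * Z ^ 4) * hI

lemma qz_prod (hI : qI a b c d e = 0) (hJ : qJ a b c d e = -432 * m ^ 6) :
    (b ^ 2 - 8 / 3 * a * c) ^ 3 + 16 * (4 * a * m ^ 2) ^ 3 = qr a b c d ^ 2 := by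
  unfold qr
  unfold qI at hI
  unfold qJ at hJ
  linear_combination (48 / 27 * a ^ 2 * (3 * b ^ 2 - 8 * a * c)) * hI + (64 / 27 * a ^ 3) * hJ

/-- the product over the roots -/
lemma qz_prod3 (hI : qI a b c d e = 0) (hJ : qJ a b c d e = -432 * m ^ 6) {α β γ : F}
    (h1 : α + β + γ = 0) (h2 : α * β + α * γ + β * γ = 0) (h3 : α * β * γ = -16) :
    qz a b c m α * qz a b c m β * qz a b c m γ = qr a b c d ^ 2 := by
  rw [← qz_prod hI hJ]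
  unfold qz
  linear_combination (-(b ^ 2 - 8 / 3 * a * c) ^ 2 * (4 * a * m ^ 2)) * h1 +
    ((b ^ 2 - 8 / 3 * a * c) * (4 * a * m ^ 2) ^ 2) * h2 - (4 * a * m ^ 2) ^ 3 * h3

/-- the partial derivative -/
def qX (a b c d X Z : F) : F := 4 * a * X ^ 3 + 3 * b * X ^ 2 * Z + 2 * c * X * Z ^ 2 + d * Z ^ 3

lemma q4_hess (a b c d e X Z : F) : q4 a b c d e X Z * Z ^ 2 =
    3 * qX a b c d X Z ^ 2 -
      4 * qf a b c d e X Z * (12 * a * X ^ 2 + 6 * b * X * Z + 2 * c * Z ^ 2) := by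
  unfold q4 qX qf
  ring

lemma qX_ne (hI : qI a b c d e = 0) (hJ : qJ a b c d e = -432 * m ^ 6) (hm : m ≠ 0) (hZ : Z ≠ 0)
    (h0 : qf a b c d e X Z = 0) : qX a b c d X Z ≠ 0 := by
  intro h1
  have e1 : Z ^ 4 * qI a b c d e = 12 * a * qf a b c d e X Z -
      3 * (4 * a * X + b * Z) * qX a b c d X Z + (6 * a * X ^ 2 + 3 * b * X * Z + c * Z ^ 2) ^ 2 := by
    unfold qI qf qX
    ring
  have e2 : Z ^ 6 * qJ a b c d e =
      72 * a * (6 * a * X ^ 2 + 3 * b * X * Z + c * Z ^ 2) * qf a b c d e X Z +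
      9 * (4 * a * X + b * Z) * (6 * a * X ^ 2 + 3 * b * X * Z + c * Z ^ 2) * qX a b c d X Z -
      27 * a * qX a b c d X Z ^ 2 - 27 * qf a b c d e X Z * (4 * a * X + b * Z) ^ 2 -
      2 * (6 * a * X ^ 2 + 3 * b * X * Z + c * Z ^ 2) ^ 3 := by
    unfold qJ qf qX
    ring
  rw [hI, h0, h1] at e1
  have e3 : 6 * a * X ^ 2 + 3 * b * X * Z + c * Z ^ 2 = 0 := by
    have : (6 * a * X ^ 2 + 3 * b * X * Z + c * Z ^ 2) ^ 2 = 0 := by linear_combination -e1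
    exact pow_eq_zero_iff (two_ne_zero) |>.1 this
  rw [hJ, h0, h1, e3] at e2
  have e4 : Z ^ 6 * m ^ 6 = 0 := by linear_combination (-1 / 432) * e2
  rcases mul_eq_zero.1 e4 with h | h
  · exact hZ (pow_eq_zero_iff (by norm_num) |>.1 h)
  · exact hm (pow_eq_zero_iff (by norm_num) |>.1 h)

/-- the root -/
lemma root_eq (ha : a ≠ 0) (hI : qI a b c d e = 0) {t1 t2 t3 : F}
    (h1 : t1 ^ 2 + t2 ^ 2 + t3 ^ 2 = 3 * b ^ 2 - 8 * a * c)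
    (h2 : t1 ^ 2 * t2 ^ 2 + t1 ^ 2 * t3 ^ 2 + t2 ^ 2 * t3 ^ 2 = (3 * b ^ 2 - 8 * a * c) ^ 2 / 3)
    (h3 : t1 * t2 * t3 = -qr a b c d) :
    qf a b c d e ((t1 + t2 + t3 - b) / (4 * a)) 1 = 0 := by
  have key : 256 * a ^ 3 * qf a b c d e ((t1 + t2 + t3 - b) / (4 * a)) 1 =
      (t1 + t2 + t3) ^ 4 - 2 * (3 * b ^ 2 - 8 * a * c) * (t1 + t2 + t3) ^ 2 +
        8 * qr a b c d * (t1 + t2 + t3) + (3 * b ^ 2 - 8 * a * c) ^ 2 -
        4 * ((3 * b ^ 2 - 8 * a * c) ^ 2 - 16 * a ^ 2 * qI a b c d e) / 3 := by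
    unfold qf qr qI
    field_simp
    ring
  have h4 : 256 * a ^ 3 * qf a b c d e ((t1 + t2 + t3 - b) / (4 * a)) 1 = 0 := by
    rw [key, hI]
    linear_combination (t1 ^ 2 + t2 ^ 2 + t3 ^ 2 - (3 * b ^ 2 - 8 * a * c) +
      4 * (t1 * t2 + t1 * t3 + t2 * t3)) * h1 + 4 * h2 + 8 * (t1 + t2 + t3) * h3
  have h5 : (256 : F) * a ^ 3 ≠ 0 := mul_ne_zero (by norm_num) (pow_ne_zero 3 ha)
  exact (mul_eq_zero.1 h4).resolve_left h5

end alg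

end Pool.Agent.K7.H56.Z
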