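import Pool.Agent.K7.H56.Z.A

/-!
# The local condition
-/

set_option autoImplicit false
set_option linter.all false

open WeierstrassCurve WeierstrassCurve.Affine NumberField IsDedekindDomain
open scoped Classical

namespace Pool.Agent.K7.H56.Z

open Pool.Agent.TH115.GD
open Pool.Agent.K7.H56.U (LC lc1 lc2 core exists_cls sq_of_triv S2)
open Pool.Agent.K7.H56.M (W0 W0_Δ)

/-- the model -/
abbrev V0 : WeierstrassCurve ℚ := Pool.Agent.Y702.G.sh W0

lemma V0_a1 : V0.a₁ = 0 := rfl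
lemma V0_a3 : V0.a₃ = 0 := rfl

lemma cub_V0 {L : Type} [Field L] [Algebra ℚ L] (x : L) : cub V0 x = x ^ 3 + 16 := by
  haveI : CharZero L := algebraRat.charZero L
  unfold cub V0 Pool.Agent.Y702.G.sh
  simp only [W0, WeierstrassCurve.b₂, WeierstrassCurve.b₄, WeierstrassCurve.b₆]
  norm_num

lemma cub'_V0 {L : Type} [Field L] [Algebra ℚ L] (x : L) : cub' V0 x = 3 * x ^ 2 := by
  haveI : CharZero L := algebraRat.charZero L
  unfold cub' V0 Pool.Agent.Y702.G.sh
  simp only [W0, WeierstrassCurve.b₂, WeierstrassCurve.b₄, WeierstrassCurve.b₆]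
  norm_num

lemma V0_Δ : V0.Δ ≠ 0 := by
  unfold V0 Pool.Agent.Y702.G.sh
  simp only [W0, WeierstrassCurve.Δ, WeierstrassCurve.b₂, WeierstrassCurve.b₄, WeierstrassCurve.b₆,
    WeierstrassCurve.b₈]
  norm_num

lemma isC_sums {Ω : Type} [Field Ω] [Algebra ℚ Ω] {α β γ : Ω}
    (h : IsC (V0.baseChange Ω).toAffine α β γ) :
    α + β + γ = 0 ∧ α * β + α * γ + β * γ = 0 ∧ α * β * γ = -16 := by
  haveI : CharZero Ω := algebraRat.charZero Ω
  have h2 := h.e2
  have h4 := h.e4
  have h6 := h.e6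
  unfold V0 Pool.Agent.Y702.G.sh at h2 h4 h6
  simp only [W0, WeierstrassCurve.b₂, WeierstrassCurve.b₄, WeierstrassCurve.b₆] at h2 h4 h6
  norm_num at h2 h4 h6
  refine ⟨by linear_combination h2, by linear_combination -h4, by linear_combination h6⟩

section loc
variable {L Ω : Type} [Field L] [Field Ω] [Algebra ℚ L] [Algebra L Ω] [Algebra ℚ Ω]
  [IsScalarTower ℚ L Ω] [IsAlgClosed Ω]

theorem lc_quartic (a b c d e m X Z y : L) (hI : qI a b c d e = 0)
    (hJ : qJ a b c d e = -432 * m ^ 6) (hm : m ≠ 0) (hr : qr a b c d ≠ 0) (hXZ : X ≠ 0 ∨ Z ≠ 0)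
    (hy : y ^ 2 = qf a b c d e X Z) :
    LC L Ω V0 (fun ε => algebraMap L Ω (b ^ 2 - 8 / 3 * a * c) - algebraMap L Ω (4 * a * m ^ 2) * ε) := by
  haveI : CharZero L := algebraRat.charZero L
  haveI : CharZero Ω := algebraRat.charZero Ω
  set A := algebraMap L Ω with hA
  have hAi : Function.Injective A := A.injective
  have hqz : ∀ ε : Ω, A (b ^ 2 - 8 / 3 * a * c) - A (4 * a * m ^ 2) * ε =
      qz (A a) (A b) (A c) (A m) ε := by
    intro ε
    unfold qz
    simp only [map_sub, map_mul, map_pow, map_div₀, map_ofNat]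
  have hI' : qI (A a) (A b) (A c) (A d) (A e) = 0 := by
    have := congrArg A hI
    unfold qI at this ⊢
    simpa only [map_sub, map_add, map_mul, map_pow, map_ofNat, map_zero] using this
  have hJ' : qJ (A a) (A b) (A c) (A d) (A e) = -432 * (A m) ^ 6 := by
    have := congrArg A hJ
    unfold qJ at this ⊢
    simpa only [map_sub, map_add, map_mul, map_pow, map_ofNat, map_neg] using this
  have hr' : qr (A a) (A b) (A c) (A d) = A (qr a b c d) := by
    unfold qr
    simp only [map_sub, map_add, map_mul, map_pow, map_ofNat]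
  have hr0 : qr (A a) (A b) (A c) (A d) ≠ 0 := by
    rw [hr']
    exact (map_ne_zero_iff A hAi).2 hr
  have hy' : (A y) ^ 2 = qf (A a) (A b) (A c) (A d) (A e) (A X) (A Z) := by
    have := congrArg A hy
    unfold qf at this ⊢
    simpa only [map_add, map_mul, map_pow] using this
  have hroot : ∀ ε : Ω, cub V0 ε = 0 → ∃ β γ, IsC (V0.baseChange Ω).toAffine ε β γ := fun ε hε =>
    exists_isC (K := ℚ) (Ω := Ω) (W := V0) V0_a1 V0_a3 V0_Δ two_ne_zero hε
  have hz0 : ∀ ε : Ω, cub V0 ε = 0 → qz (A a) (A b) (A c) (A m) ε ≠ 0 := by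
    intro ε hε h0
    obtain ⟨β, γ, hC⟩ := hroot ε hε
    obtain ⟨s1, s2, s3⟩ := isC_sums hC
    have h1 := qz_prod3 hI' hJ' s1 s2 s3
    rw [h0, zero_mul, zero_mul] at h1
    exact hr0 (pow_eq_zero_iff two_ne_zero |>.1 h1.symm)
  have hfix : ∀ (σ : Ω ≃ₐ[L] Ω) (x : L), σ (A x) = A x := fun σ x => σ.commutes x
  have hHfix : ∀ (σ : Ω ≃ₐ[L] Ω) (ε : Ω), σ (qH (A a) (A b) (A c) (A d) (A m) ε (A X) (A Z)) =
      qH (A a) (A b) (A c) (A d) (A m) (σ ε) (A X) (A Z) := by
    intro σ ε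
    unfold qH qz
    simp only [map_sub, map_add, map_mul, map_pow, map_div₀, map_ofNat, hfix]
  by_cases hy0 : y = 0
  · have hq0 : qf a b c d e X Z = 0 := by rw [← hy, hy0]; ring
    by_cases hZ : Z = 0
    · have hX : X ≠ 0 := hXZ.resolve_right fun h => h hZ
      have ha : a = 0 := by
        unfold qf at hq0
        rw [hZ] at hq0
        have : a * X ^ 4 = 0 := by linear_combination hq0
        exact (mul_eq_zero.1 this).resolve_right (pow_ne_zero 4 hX)
      refine lc1 fun ε hε => ⟨A b, fun σ _ => hfix σ b, ?_⟩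
      show A (b ^ 2 - 8 / 3 * a * c) - A (4 * a * m ^ 2) * ε = A b ^ 2
      rw [ha, mul_zero, zero_mul, sub_zero, mul_zero, zero_mul, map_zero, zero_mul, sub_zero, map_pow]
    · have hqX := qX_ne hI hJ hm hZ hq0
      refine lc1 fun ε hε => ⟨qH (A a) (A b) (A c) (A d) (A m) ε (A X) (A Z) * A (Z / (3 * qX a b c d X Z)),
        fun σ hσ => ?_, ?_⟩
      · rw [map_mul, hfix, hHfix, hσ]
      · show A (b ^ 2 - 8 / 3 * a * c) - A (4 * a * m ^ 2) * ε = _
        rw [hqz, mul_pow, qH_sq hI' hJ' (by rw [← cub_V0]; exact hε), ← hy', hy0, map_zero]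
        have h1 : A (Z / (3 * qX a b c d X Z)) ^ 2 * (q4 (A a) (A b) (A c) (A d) (A e) (A X) (A Z)) =
            1 / 3 := by
          have e1 : q4 (A a) (A b) (A c) (A d) (A e) (A X) (A Z) = A (q4 a b c d e X Z) := by
            unfold q4
            simp only [map_sub, map_add, map_mul, map_pow, map_ofNat]
          have e2 := q4_hess a b c d e X Z
          rw [hq0] at e2
          have e3 : (Z / (3 * qX a b c d X Z)) ^ 2 * q4 a b c d e X Z = 1 / 3 := by
            field_simp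
            linear_combination e2
          rw [e1, ← map_pow, ← map_mul, e3, map_div₀, map_one, map_ofNat]
        linear_combination (-3 * qz (A a) (A b) (A c) (A m) ε) * h1
  · -- the general case
    have hm' : A m ≠ 0 := (map_ne_zero_iff A hAi).2 hm
    have hy0' : A y ≠ 0 := (map_ne_zero_iff A hAi).2 hy0
    set xV : L := q4 a b c d e X Z / (12 * m ^ 2 * y ^ 2) with hxV
    set yV : L := q6 a b c d e X Z / (8 * m ^ 3 * y ^ 3) with hyV
    have hxy : yV ^ 2 = cub V0 xV := by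
      rw [cub_V0, hxV, hyV]
      have h1 := syz a b c d e X Z hI
      rw [hJ, ← hy] at h1
      field_simp
      linear_combination (64 : L) * h1
    have hH : ∀ ε : Ω, cub V0 ε = 0 → qH (A a) (A b) (A c) (A d) (A m) ε (A X) (A Z) ^ 2 =
        qz (A a) (A b) (A c) (A m) ε * (A xV - ε) * (6 * A m * A y) ^ 2 := by
      intro ε hε
      rw [qH_sq hI' hJ' (by rw [← cub_V0]; exact hε), ← hy']
      have e1 : A xV * (12 * A m ^ 2 * A y ^ 2) = q4 (A a) (A b) (A c) (A d) (A e) (A X) (A Z) := by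
        have e2 : xV * (12 * m ^ 2 * y ^ 2) = q4 a b c d e X Z := by
          rw [hxV]
          field_simp
        have e3 := congrArg A e2
        unfold q4 at e3 ⊢
        simpa only [map_sub, map_add, map_mul, map_pow, map_ofNat] using e3
      rw [← e1]
      ring
    have hH0 : ∀ ε : Ω, cub V0 ε = 0 → A xV ≠ ε →
        qH (A a) (A b) (A c) (A d) (A m) ε (A X) (A Z) ≠ 0 := by
      intro ε hε hne h0
      have h1 := hH ε hε
      rw [h0] at h1
      have h2 : qz (A a) (A b) (A c) (A m) ε * (A xV - ε) * (6 * A m * A y) ^ 2 ≠ 0 :=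
        mul_ne_zero (mul_ne_zero (hz0 ε hε) (sub_ne_zero.2 hne))
          (pow_ne_zero 2 (mul_ne_zero (mul_ne_zero (by norm_num) hm') hy0'))
      exact h2 (by rw [← h1]; ring)
    have h6 : (6 * A m * A y) ≠ 0 := mul_ne_zero (mul_ne_zero (by norm_num) hm') hy0'
    have h6f : ∀ σ : Ω ≃ₐ[L] Ω, σ (6 * A m * A y) = 6 * A m * A y := fun σ => by
      rw [map_mul, map_mul, map_ofNat, hfix, hfix]
    refine lc2 V0_a1 V0_a3 V0_Δ hxy fun ε hε => ?_
    by_cases hx : A xV = ε
    · obtain ⟨β, γ, hC⟩ := hroot ε hε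
      have hβ : A xV ≠ β := fun h => hC.ab (hx.symm.trans h)
      have hγ : A xV ≠ γ := fun h => hC.ac (hx.symm.trans h)
      have rβ : cub V0 β = 0 := hC.root_b
      have rγ : cub V0 γ = 0 := hC.root_c
      refine ⟨(6 * A m * A y) ^ 2 * A (qr a b c d) /
        (qH (A a) (A b) (A c) (A d) (A m) β (A X) (A Z) *
          qH (A a) (A b) (A c) (A d) (A m) γ (A X) (A Z)), cub' V0 ε, fun σ hσ => ?_, ?_,
        Or.inl ⟨hx, rfl⟩⟩
      · rw [map_div₀, map_mul, map_mul, map_pow, h6f, hfix, hHfix, hHfix]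
        rcases hC.perm1 (rs ℚ σ) hσ with ⟨h1, h2⟩ | ⟨h1, h2⟩
        · have h1' : σ β = β := h1
          have h2' : σ γ = γ := h2
          rw [h1', h2']
        · have h1' : σ β = γ := h1
          have h2' : σ γ = β := h2
          rw [h1', h2', mul_comm (qH (A a) (A b) (A c) (A d) (A m) γ (A X) (A Z))]
      · show A (b ^ 2 - 8 / 3 * a * c) - A (4 * a * m ^ 2) * ε = _
        obtain ⟨s1, s2, s3⟩ := isC_sums hC
        have hp := qz_prod3 hI' hJ' s1 s2 s3
        have hb2 := hH β rβ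
        have hc2 := hH γ rγ
        have hHb := hH0 β rβ hβ
        have hHc := hH0 γ rγ hγ
        rw [hqz, hC.cub'_eq, ← hr', div_pow, div_mul_eq_mul_div, eq_div_iff (pow_ne_zero 2 (mul_ne_zero hHb hHc)),
          mul_pow, hb2, hc2, mul_pow, hx]
        linear_combination ((6 * A m * A y) ^ 4 * (ε - β) * (ε - γ)) * hp
    · have hHe := hH0 ε hε hx
      have hd : A xV - ε ≠ 0 := sub_ne_zero.2 hx
      refine ⟨qH (A a) (A b) (A c) (A d) (A m) ε (A X) (A Z) / (6 * A m * A y * (A xV - ε)), A xV - ε,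
        fun σ hσ => ?_, ?_, Or.inr ⟨hx, rfl⟩⟩
      · rw [map_div₀, map_mul, h6f, map_sub, hfix, hHfix, hσ]
      · show A (b ^ 2 - 8 / 3 * a * c) - A (4 * a * m ^ 2) * ε = _
        rw [hqz, div_pow, hH ε hε, mul_pow]
        field_simp

end loc

end Pool.Agent.K7.H56.Z
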