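import Pool.Agent.K7.H56.Z.B
import Pool.Agent.R425.G.Cl5

/-!
# The root over the number field
-/

set_option autoImplicit false
set_option linter.all false

open WeierstrassCurve WeierstrassCurve.Affine NumberField IsDedekindDomain
open scoped Classical

namespace Pool.Agent.K7.H56.Z

open Pool.Agent.TH115.GD
open Pool.Agent.K7.H56.U (LC lc1 lc2 core exists_cls sq_of_triv S2 root_act cub_ne')
open Pool.Agent.K7.H56.M (W0 W0_Δ)

section perm

variable {K Ω : Type} [Field K] [Field Ω] [Algebra ℚ K] [Algebra K Ω] [Algebra ℚ Ω]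
  [IsScalarTower ℚ K Ω] {V : WeierstrassCurve ℚ} {a b c : Ω}

/-- sums over the roots do not change under permutations -/
theorem sum_perm (hC : IsC (V.baseChange Ω).toAffine a b c) (σ : Ω ≃ₐ[K] Ω) (t : Ω → Ω) :
    t (σ a) + t (σ b) + t (σ c) = t a + t b + t c := by
  have ra := hC.root (root_act σ hC.root_a)
  have rb := hC.root (root_act σ hC.root_b)
  have rc := hC.root (root_act σ hC.root_c)
  have hab : σ a ≠ σ b := fun h => hC.ab (σ.injective h)
  have hac : σ a ≠ σ c := fun h => hC.ac (σ.injective h)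
  have hbc : σ b ≠ σ c := fun h => hC.bc (σ.injective h)
  rcases ra with h1 | h1 | h1 <;> rcases rb with h2 | h2 | h2 <;> rcases rc with h3 | h3 | h3 <;>
    first
      | exact absurd (h1.trans h2.symm) hab
      | exact absurd (h1.trans h3.symm) hac
      | exact absurd (h2.trans h3.symm) hbc
      | (rw [h1, h2, h3] <;> ring)

end perm

section glob

variable {K : Type} [Field K] [NumberField K]

/-- A local point on `y² = G(X, Z)`, for the form with coefficients in `K`. -/
def LPt (a b c d e : K) (F : Type) [Field F] [Algebra K F] : Prop :=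
  ∃ X Z y : F, (X ≠ 0 ∨ Z ≠ 0) ∧ y ^ 2 = qf (algebraMap K F a) (algebraMap K F b) (algebraMap K F c)
    (algebraMap K F d) (algebraMap K F e) X Z

theorem lc_of_pt {a b c d e m : K} (hI : qI a b c d e = 0)
    (hJ : qJ a b c d e = -432 * m ^ 6) (hm : m ≠ 0) (hr : qr a b c d ≠ 0)
    (F : Type) [Field F] [Algebra K F] [Algebra ℚ F] (h : LPt a b c d e F) :
    LC F (AlgebraicClosure F) V0 (fun ε => algebraMap K (AlgebraicClosure F) (b ^ 2 - 8 / 3 * a * c) -
      algebraMap K (AlgebraicClosure F) (4 * a * m ^ 2) * ε) := by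
  obtain ⟨X, Z, y, hXZ, hy⟩ := h
  set A := algebraMap K F with hA
  have hAi : Function.Injective A := A.injective
  have hI' : qI (A a) (A b) (A c) (A d) (A e) = 0 := by
    have := congrArg A hI
    unfold qI at this ⊢
    simpa only [map_sub, map_add, map_mul, map_pow, map_ofNat, map_zero] using this
  have hJ' : qJ (A a) (A b) (A c) (A d) (A e) = -432 * (A m) ^ 6 := by
    have := congrArg A hJ
    unfold qJ at this ⊢
    simpa only [map_sub, map_add, map_mul, map_pow, map_ofNat, map_neg] using this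
  have hr' : qr (A a) (A b) (A c) (A d) = A (qr a b c d) := by
    unfold qr
    simp only [map_sub, map_add, map_mul, map_pow, map_ofNat]
  have h1 := lc_quartic (L := F) (Ω := AlgebraicClosure F) (A a) (A b) (A c) (A d) (A e) (A m) X Z y
    hI' hJ' ((map_ne_zero_iff A hAi).2 hm) (by rw [hr']; exact (map_ne_zero_iff A hAi).2 hr) hXZ hy
  have e1 : algebraMap F (AlgebraicClosure F) (A b ^ 2 - 8 / 3 * A a * A c) =
      algebraMap K (AlgebraicClosure F) (b ^ 2 - 8 / 3 * a * c) := by
    rw [IsScalarTower.algebraMap_apply K F (AlgebraicClosure F)]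
    congr 1
    simp only [map_sub, map_mul, map_pow, map_div₀, map_ofNat, hA]
  have e2 : algebraMap F (AlgebraicClosure F) (4 * A a * A m ^ 2) =
      algebraMap K (AlgebraicClosure F) (4 * a * m ^ 2) := by
    rw [IsScalarTower.algebraMap_apply K F (AlgebraicClosure F)]
    congr 1
    simp only [map_mul, map_pow, map_ofNat, hA]
  rw [e1, e2] at h1
  exact h1

/-- **the quartic form has a root** -/
theorem root_of_els (hS : S2 K) (h3 : ∀ x : K, x ^ 3 ≠ 2) {a b c d e m : K}
    (hI : qI a b c d e = 0) (hJ : qJ a b c d e = -432 * m ^ 6) (hm : m ≠ 0)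
    (hfin : ∀ v : HeightOneSpectrum (𝓞 K), LPt a b c d e (v.adicCompletion K))
    (hinf : ∀ v : InfinitePlace K, LPt a b c d e v.Completion) :
    ∃ X Z : K, (X ≠ 0 ∨ Z ≠ 0) ∧ qf a b c d e X Z = 0 := by
  by_cases ha : a = 0
  · refine ⟨1, 0, Or.inl one_ne_zero, ?_⟩
    unfold qf
    rw [ha]
    ring
  haveI : IsGalois K (AlgebraicClosure K) := by
    haveI : CharZero K := inferInstance
    infer_instance
  haveI : CharZero (AlgebraicClosure K) := algebraRat.charZero _
  set A := algebraMap K (AlgebraicClosure K) with hA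
  have hAi : Function.Injective A := A.injective
  have hΔ : W0.Δ ≠ 0 := by rw [W0_Δ]; norm_num
  obtain ⟨α, β, γ, hC⟩ := Y355.G.V_roots V0_a1 V0_a3 V0_Δ (AlgebraicClosure K)
  obtain ⟨s1, s2, s3⟩ := isC_sums hC
  set ζ : AlgebraicClosure K → AlgebraicClosure K :=
    fun ε => A (b ^ 2 - 8 / 3 * a * c) - A (4 * a * m ^ 2) * ε with hζ
  have hqz : ∀ ε, ζ ε = qz (A a) (A b) (A c) (A m) ε := by
    intro ε
    unfold qz
    simp only [hζ, map_sub, map_mul, map_pow, map_div₀, map_ofNat]
  have hI' : qI (A a) (A b) (A c) (A d) (A e) = 0 := by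
    have := congrArg A hI
    unfold qI at this ⊢
    simpa only [map_sub, map_add, map_mul, map_pow, map_ofNat, map_zero] using this
  have hJ' : qJ (A a) (A b) (A c) (A d) (A e) = -432 * (A m) ^ 6 := by
    have := congrArg A hJ
    unfold qJ at this ⊢
    simpa only [map_sub, map_add, map_mul, map_pow, map_ofNat, map_neg] using this
  have hr' : qr (A a) (A b) (A c) (A d) = A (qr a b c d) := by
    unfold qr
    simp only [map_sub, map_add, map_mul, map_pow, map_ofNat]
  have hp := qz_prod3 hI' hJ' s1 s2 s3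
  rw [← hqz, ← hqz, ← hqz, hr'] at hp
  have h4 : 4 * a * m ^ 2 ≠ 0 := mul_ne_zero (mul_ne_zero (by norm_num) ha) (pow_ne_zero 2 hm)
  have hζ0 : ∀ ε, cub V0 ε = 0 → ζ ε ≠ 0 := by
    intro ε hε h0
    have h5 : ε = A ((b ^ 2 - 8 / 3 * a * c) / (4 * a * m ^ 2)) := by
      rw [map_div₀, eq_div_iff ((map_ne_zero_iff A hAi).2 h4)]
      linear_combination -h0
    have h6 : cub V0 (A ((b ^ 2 - 8 / 3 * a * c) / (4 * a * m ^ 2))) =
        A (cub V0 ((b ^ 2 - 8 / 3 * a * c) / (4 * a * m ^ 2))) := by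
      rw [cub_V0, cub_V0, map_add, map_pow, map_ofNat]
    rw [h5, h6] at hε
    exact cub_ne' h3 _ ((map_eq_zero_iff A hAi).1 hε)
  have hr : qr a b c d ≠ 0 := by
    intro h0
    rw [h0, map_zero] at hp
    have := mul_ne_zero (mul_ne_zero (hζ0 α hC.root_a) (hζ0 β hC.root_b)) (hζ0 γ hC.root_c)
    exact this (by rw [hp]; ring)
  obtain ⟨g, t, g1, g2, g3, g4, g5, g6⟩ := exists_cls (K := K) hC ζ
    (fun σ ε hε => by
      show σ (A (b ^ 2 - 8 / 3 * a * c) - A (4 * a * m ^ 2) * ε) =
        A (b ^ 2 - 8 / 3 * a * c) - A (4 * a * m ^ 2) * σ ε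
      rw [map_sub, map_mul, hA, σ.commutes, σ.commutes])
    hζ0 (r := qr a b c d) hp
  have hcoc : IsCoc (F := K) V0 g := ⟨g1, g2⟩
  obtain ⟨T, hT, hT2⟩ := hS g hcoc g3
    (fun v => by
      haveI : IsGalois (v.adicCompletion K) (AlgebraicClosure (v.adicCompletion K)) := by
        haveI : CharZero (v.adicCompletion K) := algebraRat.charZero _
        infer_instance
      let ι : AlgebraicClosure K →ₐ[K] AlgebraicClosure (v.adicCompletion K) :=
        IsAlgClosed.lift
      refine core (K := K) V0 hC g2 g3 g4 g6 ι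
        (ζ' := fun ε => algebraMap K (AlgebraicClosure (v.adicCompletion K)) (b ^ 2 - 8 / 3 * a * c) -
          algebraMap K (AlgebraicClosure (v.adicCompletion K)) (4 * a * m ^ 2) * ε)
        (fun ε hε => ?_) (lc_of_pt hI hJ hm hr (v.adicCompletion K) (hfin v))
      show ι (A (b ^ 2 - 8 / 3 * a * c) - A (4 * a * m ^ 2) * ε) = _
      rw [map_sub, map_mul, hA, ι.commutes, ι.commutes])
    (fun v => by
      haveI : IsGalois v.Completion (AlgebraicClosure v.Completion) := by
        haveI : CharZero v.Completion := algebraRat.charZero _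
        infer_instance
      let ι : AlgebraicClosure K →ₐ[K] AlgebraicClosure v.Completion :=
        IsAlgClosed.lift
      refine core (K := K) V0 hC g2 g3 g4 g6 ι
        (ζ' := fun ε => algebraMap K (AlgebraicClosure v.Completion) (b ^ 2 - 8 / 3 * a * c) -
          algebraMap K (AlgebraicClosure v.Completion) (4 * a * m ^ 2) * ε)
        (fun ε hε => ?_) (lc_of_pt hI hJ hm hr v.Completion (hinf v))
      show ι (A (b ^ 2 - 8 / 3 * a * c) - A (4 * a * m ^ 2) * ε) = _
      rw [map_sub, map_mul, hA, ι.commutes, ι.commutes])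
  obtain ⟨t', ht1, ht2⟩ := sq_of_triv (K := K) hC g3 g4 g6 hT hT2
  have ra := ht1 α hC.root_a
  have rb := ht1 β hC.root_b
  have rc := ht1 γ hC.root_c
  -- the sign
  obtain ⟨s, hs, hs2⟩ : ∃ s : K, s ^ 2 = 1 ∧
      (A s * t' α) * (A s * t' β) * (A s * t' γ) = -A (qr a b c d) := by
    have h1 : (t' α * t' β * t' γ) ^ 2 = A (qr a b c d) ^ 2 := by
      rw [mul_pow, mul_pow, ra, rb, rc, hp]
    rcases sq_eq_sq_iff_eq_or_eq_neg.1 h1 with h | h
    · refine ⟨-1, by norm_num, ?_⟩
      rw [map_neg, map_one]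
      linear_combination -h
    · refine ⟨1, by norm_num, ?_⟩
      rw [map_one]
      linear_combination h
  have hsA : (A s) ^ 2 = 1 := by rw [← map_pow, hs, map_one]
  obtain ⟨x, hx⟩ : ∃ x : K, A x = A s * t' α + A s * t' β + A s * t' γ := by
    have : (A s * t' α + A s * t' β + A s * t' γ) ∈ Set.range (algebraMap K (AlgebraicClosure K)) := by
      rw [InfiniteGalois.mem_range_algebraMap_iff_fixed]
      intro σ
      rw [map_add, map_add, map_mul, map_mul, map_mul, ht2 σ α hC.root_a, ht2 σ β hC.root_b,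
        ht2 σ γ hC.root_c, hA, σ.commutes]
      have h7 := sum_perm hC σ t'
      linear_combination (algebraMap K (AlgebraicClosure K) s) * h7
    obtain ⟨x, hx⟩ := this
    exact ⟨x, hx⟩
  refine ⟨(x - b) / (4 * a), 1, Or.inr one_ne_zero, ?_⟩
  apply hAi
  have h8 := root_eq (a := A a) (b := A b) (c := A c) (d := A d) (e := A e)
    ((map_ne_zero_iff A hAi).2 ha) hI' (t1 := A s * t' α) (t2 := A s * t' β) (t3 := A s * t' γ)
    (by
      rw [mul_pow, mul_pow, mul_pow, hsA, ra, rb, rc, hqz, hqz, hqz]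
      unfold qz
      linear_combination (-4 * A a * A m ^ 2) * s1)
    (by
      rw [mul_pow, mul_pow, mul_pow, hsA, ra, rb, rc, hqz, hqz, hqz]
      unfold qz
      linear_combination (-2 * (A b ^ 2 - 8 / 3 * A a * A c) * (4 * A a * A m ^ 2)) * s1 +
        (4 * A a * A m ^ 2) ^ 2 * s2)
    (by rw [hs2, hr'])
  rw [← hx] at h8
  rw [map_zero, ← h8]
  unfold qf
  simp only [map_add, map_mul, map_pow, map_div₀, map_sub, map_ofNat, map_one]

end glob

end Pool.Agent.K7.H56.Z
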