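import Pool.Agent.K7.H56.Z.C

/-!
# Zeros over extensions
-/

set_option autoImplicit false
set_option linter.all false

open NumberField IsDedekindDomain

namespace Pool.Agent.K7.H56.Z

open Pool.Agent.K7.H56.U (S2 cub_ne' compl_inf)
open Pool.Agent.Y664.QA (compl_tower)

section alg
variable {F : Type} [Field F] [CharZero F] {a b c d e m : F}

/-- two different zeros give a root of the cubic -/
lemma two_zeros (ha : a ≠ 0) (hm : m ≠ 0) (hI : qI a b c d e = 0)
    (hJ : qJ a b c d e = -432 * m ^ 6) {x y : F} (hxy : x ≠ y) (hx : qf a b c d e x 1 = 0)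
    (hy : qf a b c d e y 1 = 0) : ∃ ε : F, ε ^ 3 + 16 = 0 := by
  unfold qf at hx hy
  unfold qI at hI
  unfold qJ at hJ
  have hd : d = -(a * (x ^ 3 + x ^ 2 * y + x * y ^ 2 + y ^ 3) + b * (x ^ 2 + x * y + y ^ 2) +
      c * (x + y)) := by
    have h1 : (x - y) * (d + (a * (x ^ 3 + x ^ 2 * y + x * y ^ 2 + y ^ 3) +
        b * (x ^ 2 + x * y + y ^ 2) + c * (x + y))) = 0 := by
      linear_combination hx - hy
    have h2 := (mul_eq_zero.1 h1).resolve_left (sub_ne_zero.2 hxy)
    linear_combination h2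
  have he : e = x * y * (c + b * (x + y) + a * (x ^ 2 + x * y + y ^ 2)) := by
    linear_combination hx - x * hd
  subst hd he
  set T := (2 * a * (x + y) + b) ^ 2 with hT
  set B := b ^ 2 - 8 / 3 * a * c with hB
  have h3 : (B - T) ^ 3 + 1024 * a ^ 3 * m ^ 6 = 0 := by
    linear_combination (exp := 1) (16 / 3 * a ^ 2 * (B - T)) * hI + (64 / 27 * a ^ 3) * hJ
  refine ⟨(B - T) / (4 * a * m ^ 2), ?_⟩
  field_simp
  linear_combination h3

end alg

section down

variable {k K : Type} [Field k] [NumberField k] [Field K] [NumberField K] [Algebra k K]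

/-- a zero over a Galois extension which contains no cube root of two -/
theorem zero_down [IsGalois k K] (h3 : ∀ x : K, x ^ 3 ≠ 2) {a b c d e : k} {m : K}
    (hI : qI a b c d e = 0) (hJ : algebraMap k K (qJ a b c d e) = -432 * m ^ 6) (hm : m ≠ 0)
    (h : ∃ X Z : K, (X ≠ 0 ∨ Z ≠ 0) ∧ qf (algebraMap k K a) (algebraMap k K b) (algebraMap k K c)
      (algebraMap k K d) (algebraMap k K e) X Z = 0) :
    ∃ X Z : k, (X ≠ 0 ∨ Z ≠ 0) ∧ qf a b c d e X Z = 0 := by
  by_cases ha : a = 0
  · refine ⟨1, 0, Or.inl one_ne_zero, ?_⟩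
    unfold qf
    rw [ha]
    ring
  set A := algebraMap k K with hA
  have hAi : Function.Injective A := A.injective
  have ha' : A a ≠ 0 := (map_ne_zero_iff A hAi).2 ha
  obtain ⟨X, Z, hXZ, h0⟩ := h
  have hZ : Z ≠ 0 := by
    rintro rfl
    have hX : X ≠ 0 := hXZ.resolve_right fun h => h rfl
    unfold qf at h0
    have : A a * X ^ 4 = 0 := by linear_combination h0
    exact (mul_ne_zero ha' (pow_ne_zero 4 hX)) this
  set θ := X / Z with hθ
  have hθ0 : qf (A a) (A b) (A c) (A d) (A e) θ 1 = 0 := by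
    have : qf (A a) (A b) (A c) (A d) (A e) X Z =
        Z ^ 4 * qf (A a) (A b) (A c) (A d) (A e) θ 1 := by
      unfold qf
      rw [hθ]
      field_simp
    rw [this] at h0
    exact (mul_eq_zero.1 h0).resolve_left (pow_ne_zero 4 hZ)
  have hI' : qI (A a) (A b) (A c) (A d) (A e) = 0 := by
    have := congrArg A hI
    unfold qI at this ⊢
    simpa only [map_sub, map_add, map_mul, map_pow, map_ofNat, map_zero] using this
  have hJ' : qJ (A a) (A b) (A c) (A d) (A e) = -432 * m ^ 6 := by
    rw [← hJ]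
    unfold qJ
    simp only [map_sub, map_add, map_mul, map_pow, map_ofNat]
  have hfix : ∀ σ : K ≃ₐ[k] K, σ θ = θ := by
    intro σ
    by_contra hne
    have hσ0 : qf (A a) (A b) (A c) (A d) (A e) (σ θ) 1 = 0 := by
      have := congrArg σ hθ0
      unfold qf at this ⊢
      simpa only [map_add, map_mul, map_pow, map_one, map_zero, hA, AlgEquiv.commutes] using this
    obtain ⟨ε, hε⟩ := two_zeros ha' hm hI' hJ' (Ne.symm hne) hθ0 hσ0
    apply cub_ne' h3 ε
    have : Pool.Agent.TH115.GD.cub V0 ε = 0 := by rw [cub_V0, hε]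
    exact this
  obtain ⟨t, ht⟩ : ∃ t : k, A t = θ := by
    have h4 : θ ∈ (⊥ : IntermediateField k K) :=
      (IsGalois.mem_bot_iff_fixed (F := k) (E := K) θ).2 fun σ => hfix σ
    exact IntermediateField.mem_bot.1 h4
  refine ⟨t, 1, Or.inr one_ne_zero, hAi ?_⟩
  rw [map_zero, ← hθ0, ← ht]
  unfold qf
  simp only [map_add, map_mul, map_pow, map_one]

/-- a local point over the completions of the larger field -/
theorem lpt_up {a b c d e : k} {F F' : Type} [Field F] [Algebra k F] [Field F'] [Algebra K F']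
    (φ : F →+* F') (hφ : ∀ x : k, φ (algebraMap k F x) = algebraMap K F' (algebraMap k K x))
    (h : LPt a b c d e F) : LPt (algebraMap k K a) (algebraMap k K b) (algebraMap k K c)
      (algebraMap k K d) (algebraMap k K e) F' := by
  obtain ⟨X, Z, y, hXZ, hy⟩ := h
  refine ⟨φ X, φ Z, φ y, ?_, ?_⟩
  · rcases hXZ with h | h
    · exact Or.inl ((map_ne_zero_iff φ φ.injective).2 h)
    · exact Or.inr ((map_ne_zero_iff φ φ.injective).2 h)
  · have := congrArg φ hy
    unfold qf at this ⊢
    simpa only [map_add, map_mul, map_pow, hφ] using this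

/-- **the quartic form has a zero**, if its Jacobian becomes isomorphic to `y² + y = x³` over the Galois
extension `K` of `k` -/
theorem zero_of_els [IsGalois k K] (hS : S2 K) (h3 : ∀ x : K, x ^ 3 ≠ 2) {a b c d e : k} {m : K}
    (hI : qI a b c d e = 0) (hJ : algebraMap k K (qJ a b c d e) = -432 * m ^ 6) (hm : m ≠ 0)
    (hfin : ∀ v : HeightOneSpectrum (𝓞 k), LPt a b c d e (v.adicCompletion k))
    (hinf : ∀ v : InfinitePlace k, LPt a b c d e v.Completion) :
    ∃ X Z : k, (X ≠ 0 ∨ Z ≠ 0) ∧ qf a b c d e X Z = 0 := by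
  refine zero_down h3 hI hJ hm ?_
  refine root_of_els hS h3 (m := m) ?_ ?_ hm (fun w => ?_) (fun w => ?_)
  · have := congrArg (algebraMap k K) hI
    unfold qI at this ⊢
    simpa only [map_sub, map_add, map_mul, map_pow, map_ofNat, map_zero] using this
  · rw [← hJ]
    unfold qJ
    simp only [map_sub, map_add, map_mul, map_pow, map_ofNat]
  · obtain ⟨v, φ, hφ⟩ := compl_tower k K w
    exact lpt_up φ hφ (hfin v)
  · obtain ⟨v, φ, hφ⟩ := compl_inf (F := k) w
    exact lpt_up φ hφ (hinf v)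

end down

end Pool.Agent.K7.H56.Z
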